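import Pool.Agent.H80.G2.Targets

set_option autoImplicit false

open scoped InnerProductSpace

namespace Pool.Agent.H54.G2

open Pool.Agent.H80.G2

theorem pf_DEN : T_DEN := by
  intro H _ _ _ M ξ hξ ζ
  set S : Set H := {η : H | ∃ y : H →L[ℂ] H, (∀ z ∈ M, z * y = y * z) ∧ ∃ n, η = y (ξ n)} with hS
  set K : Submodule ℂ H := (Submodule.span ℂ S).topologicalClosure with hK
  have : CompleteSpace K := (Submodule.isClosed_topologicalClosure _).completeSpace_coe
  set e : H →L[ℂ] H := K.starProjection with he
  have hproj : IsStarProjection e := isStarProjection_starProjection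
  have hfix : ∀ v, v ∈ K → e v = v := fun v hv => Submodule.starProjection_eq_self_iff.2 hv
  have hmem : ∀ v, e v ∈ K := fun v => Submodule.starProjection_apply_mem K v
  have hSK : ∀ v ∈ S, v ∈ K := fun v hv =>
    Submodule.le_topologicalClosure _ (Submodule.subset_span hv)
  have hinv : ∀ y : H →L[ℂ] H, (∀ z ∈ M, z * y = y * z) → ∀ v ∈ K, y v ∈ K := by
    intro y hy v hv
    have h1 : v ∈ closure ((Submodule.span ℂ S : Submodule ℂ H) : Set H) := hv
    have h2 : y v ∈ closure ((Submodule.span ℂ S : Submodule ℂ H) : Set H) := by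
      refine map_mem_closure y.continuous h1 ?_
      intro w hw
      induction hw using Submodule.span_induction with
      | mem w hw =>
        obtain ⟨y', hy', n, rfl⟩ := hw
        refine Submodule.subset_span ⟨y * y', ?_, n, rfl⟩
        intro z hz
        rw [← mul_assoc, hy z hz, mul_assoc, hy' z hz, mul_assoc]
      | zero => rw [map_zero]; exact Submodule.zero_mem _
      | add a b _ _ ha hb => rw [map_add]; exact Submodule.add_mem _ ha hb
      | smul c a _ ha => rw [map_smul]; exact Submodule.smul_mem _ c ha
    exact h2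
  have hse : star e = e := hproj.isSelfAdjoint.star_eq
  have heye : ∀ y : H →L[ℂ] H, (∀ z ∈ M, z * y = y * z) → e * y * e = y * e := by
    intro y hy
    ext z
    exact hfix _ (hinv y hy _ (hmem z))
  have heM : e ∈ M := by
    apply mem_of_comm
    intro y hy
    have hy' : ∀ z ∈ M, z * star y = star y * z := by
      intro z hz
      have h3 := congrArg star (hy (star z) (star_mem hz))
      rw [star_mul, star_mul, star_star] at h3
      exact h3.symm
    have h1 := heye y hy
    have h2 := congrArg star (heye (star y) hy')
    rw [star_mul, star_mul, star_mul, star_star, hse] at h2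
    rw [← h1, mul_assoc]
    exact h2.symm
  have h1e : (1 : H →L[ℂ] H) - e = 0 := by
    refine eq_zero_of_apply hξ (sub_mem (one_mem M) heM) ?_
    intro n
    have h4 : ξ n ∈ K := hSK _ ⟨1, fun z _ => by rw [mul_one, one_mul], n, rfl⟩
    change ξ n - e (ξ n) = 0
    rw [hfix _ h4, sub_self]
  have h5 : e ζ = ζ := by
    have h6 := congrArg (fun w : H →L[ℂ] H => w ζ) (sub_eq_zero.1 h1e)
    exact h6.symm
  rw [← h5]
  exact hmem ζ

end Pool.Agent.H54.G2
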